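import Pool.Agent.Helper51.TS.OwnRow

/-!
# The `O` column under the cap of any class cell, without the volume of the class cell
-/

set_option autoImplicit false

namespace Pool.Agent.Helper51.TS

open Pool.Agent.Helper84.TS Pool.Agent.Helper23.TS Pool.Agent.Helper36.TS Pool.Agent.Helper44.TS
  Pool.Agent.Helper74.TS Pool.Agent.Helper90.TS Pool.Agent.Helper95.TS

/-- the net loss of the row under the cap `1 - a` of a class cell of height `δ` -/
noncomputable def net (a δ : ℝ) : ℝ := -LO a + oT a δ

variable {A : Fin 4 → Fin 4 → Option (Fin 4 → ℝ)} {P : Fin 4 → Fin 4 → ℝ}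

/-- **the `O` column under the cap of the class cell `F`** -/
theorem col_net {i j x y : Fin 4} (R : Rows A P i j x y) {F : Fin 4 → ℝ} (hF : A i x = some F)
    (k : KA P i x y j F) (hd : F i - 1 < 11 / 20) :
    col1 A P (43 / 50) x y ≤
      1849 / 5000 + 3 / 5 * (P y y - 1) + net (Helper90.TS.cmp i j F) (F i - 1) := by
  have hn := R.hn
  have hn1 : [i, x, y, j].Nodup := by
    clear * - hn; revert hn; revert i j x y; decide
  have := row_O R.of R.ry hn1 hF hd (k hd)
  unfold col1 net
  linarith

end Pool.Agent.Helper51.TS
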