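import Pool.Agent.Helper51.TS.OwnReal

/-!
# The lower slot of a pair (`8/25`) with an own far cell, under the cap of a class cell
-/

set_option autoImplicit false

namespace Pool.Agent.Helper51.TS

open Pool.Agent.Helper36.TS Pool.Agent.Helper74.TS Pool.Agent.Helper95.TS

/-- `L2` on `[1, 5/4]` -/
theorem L2_near {y : ℝ} (y0 : 0 ≤ y) (y1 : y ≤ 1 / 4) :
    L2 (1 + y) = 32 / 625 + 8 / 25 * y + 41 / 100 * y ^ 2 := by
  unfold L2
  rw [if_neg (by linarith : ¬ 1 + y ≤ 17 / 25)]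
  split_ifs with h1 h2
  · have : y = 0 := by linarith
    subst this
    norm_num
  · ring
  · exfalso
    linarith
  · exfalso
    linarith

/-- `L2` on `[5/4, 9/5]` -/
theorem L2_far {y : ℝ} (y0 : 1 / 4 < y) (y1 : y ≤ 4 / 5) :
    L2 (1 + y) = 9 / 250 + 12 / 25 * y := by
  unfold L2
  rw [if_neg (by linarith : ¬ 1 + y ≤ 17 / 25), if_neg (by linarith : ¬ 1 + y ≤ 1),
    if_neg (by linarith : ¬ 1 + y ≤ 5 / 4), if_pos (by linarith : 1 + y ≤ 9 / 5)]
  ring

/-- the loss in terms of `y = A - 1` -/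
noncomputable def R2y (y : ℝ) : ℝ :=
  if y ≤ 1 / 4 then 8 / 25 * y + 41 / 100 * y ^ 2 else 12 / 25 * y - 19 / 1250

theorem L2_R {y : ℝ} (y0 : 0 ≤ y) (y1 : y ≤ 4 / 5) : L2 (1 + y) = 32 / 625 + R2y y := by
  unfold R2y
  split_ifs with h
  · rw [L2_near y0 h]
    ring
  · rw [L2_far (not_le.1 h) y1]
    ring

section

variable {w y d δ : ℝ}

/-- the elimination against `h0 y (1/2)` -/
theorem low_y (y0 : 0 ≤ y) (h : y ≤ w) (w1 : w ≤ 13 / 20) :
    -(7 / 100) * w + 25 / 46 * GG w ^ 2 ≤ -R2y y + (y / 4 + y ^ 2 / 2 - y ^ 3 / 3) ∧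
    (1 / 2 ≤ w → ∀ e : ℝ, 0 ≤ e → e ≤ 1 / 20 →
      -(7 / 100) * w + 25 / 46 * GG w ^ 2 + (w - 1 / 2) ^ 3 / 3 + e * (w - 7 / 12 - y ^ 2) ≤
        -R2y y + (y / 4 + y ^ 2 / 2 - y ^ 3 / 3)) := by
  unfold R2y
  split_ifs with hy
  · obtain ⟨h1, h2⟩ := GG_a y0 hy h w1
    refine ⟨by linarith, fun hw e e0 e1 => ?_⟩
    have := h2 hw e e0 e1
    linarith
  · obtain ⟨h1, h2⟩ := GG_b (not_le.1 hy).le h w1
    refine ⟨by linarith, fun hw e e0 e1 => ?_⟩
    have := h2 hw e e0 e1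
    linarith

/-- the increase of the volume at `δ ≥ 1/2`, `w ≤ δ` -/
theorem phi_a {e : ℝ} (y0 : 0 ≤ y) (h : y ≤ w) (e0 : 0 ≤ e) (e1 : e ≤ 1 / 20)
    (hw : w ≤ 1 / 2 + e) : h0 w (1 / 2 + e) - h0 y (1 / 2 + e) + w * mm w (1 / 2 + e) ^ 2 ≤
      (w / 4 + w ^ 2 / 2 - w ^ 3 / 3) - (y / 4 + y ^ 2 / 2 - y ^ 3 / 3) + e / 3 := by
  rw [h0_le hw, h0_le (h.trans hw)]
  have w0 : 0 ≤ w := y0.trans h
  have hm : w * mm w (1 / 2 + e) ^ 2 ≤ 1 / 200 * e := by
    rcases le_total w (2 * e) with h1 | h1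
    · have k0 := mm_nonneg w (1 / 2 + e)
      have k1 : mm w (1 / 2 + e) ≤ e := max_le (by linarith) e0
      have k2 : mm w (1 / 2 + e) ^ 2 ≤ 1 / 20 * e := by nlinarith
      have k3 : w * mm w (1 / 2 + e) ^ 2 ≤ 1 / 10 * (1 / 20 * e) :=
        mul_le_mul (by linarith) k2 (sq_nonneg _) (by norm_num)
      linarith
    · rw [mm_zero (by linarith)]
      nlinarith
  have k1 : w ^ 2 ≤ 121 / 400 := by nlinarith
  have k2 : e * w ^ 2 ≤ e * (121 / 400) := mul_le_mul_of_nonneg_left k1 e0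
  have k3 : 0 ≤ e * y ^ 2 := mul_nonneg e0 (sq_nonneg y)
  have k4 : 0 ≤ e ^ 2 * (w - y) := mul_nonneg (sq_nonneg e) (by linarith)
  nlinarith

/-- `y ≤ δ ≤ w` -/
theorem phi_b {e : ℝ} (e0 : 0 ≤ e) (hw : 1 / 2 + e ≤ w) (hy : y ≤ 1 / 2 + e) :
    h0 w (1 / 2 + e) - h0 y (1 / 2 + e) =
      (w / 4 + w ^ 2 / 2 - w ^ 3 / 3) + (w - 1 / 2) ^ 3 / 3 - (y / 4 + y ^ 2 / 2 - y ^ 3 / 3)
      + e * (w - 7 / 12 - y ^ 2) + e / 3 + e ^ 2 * (y - 1 / 2) - e ^ 3 / 3 := by
  rw [h0_ge hw, h0_le hy]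
  ring

/-- `δ ≤ y` -/
theorem phi_c {e : ℝ} (h : y ≤ w) (e0 : 0 ≤ e) (hy : 1 / 2 + e ≤ y) (w1 : w ≤ 13 / 20) :
    h0 w (1 / 2 + e) - h0 y (1 / 2 + e) ≤
      (w / 4 + w ^ 2 / 2 - w ^ 3 / 3) + (w - 1 / 2) ^ 3 / 3 - (y / 4 + y ^ 2 / 2 - y ^ 3 / 3)
      + e / 3 := by
  rw [h0_ge (hy.trans h), h0_ge hy]
  have k1 : e * (w - y) ≤ e * (1 / 3) := mul_le_mul_of_nonneg_left (by linarith) e0
  have k2 := pow_nonneg (by linarith : 0 ≤ y - 1 / 2) 3
  nlinarith

/-- **the lower slot with the volume, compared with the loss at `y ≤ w`.** -/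
theorem low_main (d0 : 0 ≤ d) (d1 : d ≤ 113 / 500) (y0 : 0 ≤ y) (h : y ≤ w) (w1 : w ≤ 13 / 20)
    (δ0 : 0 ≤ δ) (hδ : δ ≤ 11 / 20) :
    sx (8 / 25) d (d - w) + h0 w δ + w * mm w δ ^ 2 ≤ 11 / 20 * d - R2y y + hown y δ := by
  have w0 : 0 ≤ w := y0.trans h
  have he := low_elim d0 d1 w0 w1
  obtain ⟨l1, l2⟩ := low_y y0 h w1
  rw [hown_eq]
  rcases le_total δ (1 / 2) with hd | hd
  · have s := sup_mod y0 h δ0 hd
    rw [mm_zero (by linarith : δ ≤ (1 + w) / 2), max_eq_right (by linarith : δ - 1 / 2 ≤ 0)]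
    have hy := h0_half_lb (w := y)
    rcases le_total w (1 / 2) with hw | hw
    · rw [h0_half_le hw] at s
      linarith
    · rw [h0_half_ge hw] at s
      have := l2 hw 0 le_rfl (by norm_num)
      linarith
  · obtain ⟨e, hE⟩ : ∃ e, e = δ - 1 / 2 := ⟨_, rfl⟩
    have e0 : 0 ≤ e := by linarith
    have e1 : e ≤ 1 / 20 := by linarith
    have eδ : δ = 1 / 2 + e := by linarith
    subst eδ
    rw [show (1 : ℝ) / 2 + e - 1 / 2 = e by ring, max_eq_left e0]
    rcases le_total w (1 / 2 + e) with hw | hw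
    · have := phi_a y0 h e0 e1 hw
      linarith
    · have hm : mm w (1 / 2 + e) = 0 := mm_zero (by linarith)
      rw [hm]
      rcases le_total y (1 / 2 + e) with hy | hy
      · have p := phi_b e0 hw hy
        rcases le_total y (1 / 2) with hy2 | hy2
        · have q := l2 (by linarith) e e0 e1
          have k1 : 0 ≤ e ^ 2 * (1 / 2 - y) := mul_nonneg (sq_nonneg e) (by linarith)
          have k2 : 0 ≤ e ^ 3 := pow_nonneg e0 3
          nlinarith
        · have q := l2 (by linarith) 0 le_rfl (by norm_num)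
          have k1 : e * (w - 7 / 12 - y ^ 2) ≤ e * (-(1 / 6)) :=
            mul_le_mul_of_nonneg_left (by nlinarith) e0
          have k3 : e ^ 2 * (y - 1 / 2) ≤ e ^ 2 * (1 / 20) :=
            mul_le_mul_of_nonneg_left (by linarith) (sq_nonneg e)
          have k4 : e ^ 2 ≤ 1 / 20 * e := by nlinarith
          have k2 : 0 ≤ e ^ 3 := pow_nonneg e0 3
          nlinarith
      · have p := phi_c h e0 hy w1
        have q := l2 (by linarith) 0 le_rfl (by norm_num)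
        nlinarith

/-- no own term: `y = 0` -/
theorem low_zero (d0 : 0 ≤ d) (d1 : d ≤ 113 / 500) (w0 : 0 ≤ w) (w1 : w ≤ 13 / 20)
    (δ0 : 0 ≤ δ) (hδ : δ ≤ 11 / 20) :
    sx (8 / 25) d (d - w) + h0 w δ + w * mm w δ ^ 2 ≤ 11 / 20 * d := by
  have he := low_elim d0 d1 w0 w1
  rcases le_total δ (1 / 2) with hd | hd
  · have s := sup_mod le_rfl w0 δ0 hd
    rw [h0_zero δ0, h0_zero (by norm_num : (0 : ℝ) ≤ 1 / 2)] at s
    rw [mm_zero (by linarith : δ ≤ (1 + w) / 2)]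
    obtain ⟨g1, g2⟩ := GG_c w0 w1 le_rfl (by norm_num : (0 : ℝ) ≤ 1 / 20)
    rcases le_total w (1 / 2) with hw | hw
    · rw [h0_half_le hw] at s
      have := g1 (by linarith)
      linarith
    · rw [h0_half_ge hw] at s
      have := g2 hw
      linarith
  · obtain ⟨e, hE⟩ : ∃ e, e = δ - 1 / 2 := ⟨_, rfl⟩
    have e0 : 0 ≤ e := by linarith
    have e1 : e ≤ 1 / 20 := by linarith
    have eδ : δ = 1 / 2 + e := by linarith
    subst eδ
    obtain ⟨g1, g2⟩ := GG_c w0 w1 e0 e1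
    rcases le_total w (1 / 2 + e) with hw | hw
    · rw [h0_le hw]
      have hm : w * mm w (1 / 2 + e) ^ 2 ≤ w * e ^ 2 := by
        refine mul_le_mul_of_nonneg_left ?_ w0
        exact pow_le_pow_left₀ (mm_nonneg _ _) (max_le (by linarith) e0) 2
      have := g1 hw
      nlinarith
    · have hm : mm w (1 / 2 + e) = 0 := mm_zero (by linarith)
      have p := phi_b (y := 0) e0 hw (by linarith)
      rw [h0_zero (by linarith : 0 ≤ 1 / 2 + e)] at p
      rw [hm]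
      have := g2 (by linarith)
      have k2 : 0 ≤ e ^ 3 := pow_nonneg e0 3
      have k3 : 0 ≤ e ^ 2 := sq_nonneg e
      nlinarith

end

section

variable {f w al be e d u A δ : ℝ}

/-- **The lower slot of a pair, with the own cell.** -/
theorem own_T2 (h : OwnC f w al be e d u) (d0 : 0 ≤ d) (d1 : d ≤ 113 / 500) (lo : -(1 - d) ≤ u)
    (hcap : u ≤ 1 - A + d) (hδ : δ ≤ 11 / 20) (alt : al ≤ δ ∨ A ≤ e) :
    sx (8 / 25) d u + f ≤ (8 / 25) ^ 2 / 2 + 11 / 20 * d - L2 A + oT A δ := by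
  have w0 := h.w0
  have w1 := h.w1
  have hu := h.cap d0
  have hu1 : u ≤ 1 := by linarith
  have hv : ∀ _ : al ≤ δ, sx (8 / 25) d u + f ≤
      sx (8 / 25) d (d - w) + h0 w δ + w * mm w δ ^ 2 := by
    intro hal
    have h1 : sx (8 / 25) d u ≤ sx (8 / 25) d (d - w) := by
      refine sx_mono (by norm_num) (by linarith) lo (by linarith) hu ?_
      nlinarith [mul_nonneg d0 w0.le]
    have h3 := vl_own w0.le h.al0 h.be0 h.s0 (by linarith [h.he, h.e0]) hal hδ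
    linarith [h.vol]
  unfold oT
  split_ifs with hA
  · -- `1 ≤ A`
    have hal : al ≤ δ := alt.resolve_right (by linarith [h.e1])
    rcases le_total w (A - 1) with hw | hw
    · have h1 := L2_le d0 d1 lo hu1 hcap
      have h2 := vl_own_le w0.le h.al0 h.be0 h.s0 (by linarith [h.he, h.e0]) hal hδ hw
        (by linarith)
      linarith [h.vol]
    · have h1 := low_main d0 d1 (by linarith : 0 ≤ A - 1) hw w1 (h.al0.trans hal) hδ
      have h2 := L2_R (y := A - 1) (by linarith) (by linarith)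
      rw [show 1 + (A - 1) = A by ring] at h2
      have := hv hal
      rw [h2]
      linarith
  · -- `A < 1`
    have hA' := L2_le_one (not_le.1 hA).le
    rcases alt with hal | hal
    · have h1 := low_zero d0 d1 w0.le w1 (h.al0.trans hal) hδ
      have := hv hal
      linarith
    · rcases le_total A (17 / 25) with hs | hs
      · rw [L2_zero hs]
        have h1 := own_low w0 w1 h.vol1 h.e0 d0 d1 lo h.own
        linarith
      · have ho := h.own
        rw [max_eq_right (by linarith : d - e ≤ 0)] at ho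
        have h1 := sx_flat (c := 8 / 25) (by norm_num) d1 lo w0.le (by linarith : u ≤ -w)
        have h2 := h.vol2
        have h3 : (1 + w - e) ^ 2 ≤ (8 / 25 + w) ^ 2 :=
          pow_le_pow_left₀ (by linarith [h.e1]) (by linarith) 2
        have h4 := mul_le_mul_of_nonneg_left h3 w0.le
        have k2 : 0 ≤ w ^ 2 * (113 / 500 - d) := mul_nonneg (sq_nonneg w) (by linarith)
        have k3 : w ^ 3 ≤ 13 / 20 * w ^ 2 := by nlinarith [sq_nonneg w]
        have k4 : w ^ 2 ≤ 13 / 20 * w := by nlinarith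
        nlinarith

end

end Pool.Agent.Helper51.TS
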