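import Pool.Agent.Helper51.TS.OwnSlot

/-!
# A row with an own far cell in a column whose class cell caps the row

`δ` the height of the class cell (`≤ 11/20`), `A = 1 - cap`; the own cell has the components `al`
(towards the class of the class cell), `be`, the width `w` and the height `e`.
`own term`: `hown (A - 1) δ` if `1 ≤ A`.
-/

set_option autoImplicit false

namespace Pool.Agent.Helper51.TS

open Pool.Agent.Helper36.TS Pool.Agent.Helper74.TS Pool.Agent.Helper95.TS

/-! ### `h0` at the height `1/2` -/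

theorem h0_half_le {w : ℝ} (h : w ≤ 1 / 2) : h0 w (1 / 2) = w / 4 + w ^ 2 / 2 - w ^ 3 / 3 := by
  rw [h0_le h]
  ring

theorem h0_half_ge {w : ℝ} (h : 1 / 2 ≤ w) :
    h0 w (1 / 2) = w / 4 + w ^ 2 / 2 - w ^ 3 / 3 + (w - 1 / 2) ^ 3 / 3 := by
  rw [h0_ge h]
  ring

theorem h0_half_lb {w : ℝ} : w / 4 + w ^ 2 / 2 - w ^ 3 / 3 ≤ h0 w (1 / 2) := by
  rcases le_total w (1 / 2) with h | h
  · rw [h0_half_le h]
  · rw [h0_half_ge h]
    have := pow_nonneg (by linarith : 0 ≤ w - 1 / 2) 3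
    linarith

/-! ### the difference of `h0` in the width is increasing in the height up to `1/2` -/

theorem sup_a {y w δ : ℝ} (y0 : 0 ≤ y) (h : y ≤ w) (hw : w ≤ δ) (hδ : δ ≤ 1 / 2) :
    h0 w δ - h0 y δ ≤ h0 w (1 / 2) - h0 y (1 / 2) := by
  rw [h0_le hw, h0_le (h.trans hw), h0_half_le (hw.trans hδ), h0_half_le ((h.trans hw).trans hδ)]
  have k : 0 ≤ (w - y) * ((1 / 2 - δ) * ((1 / 2 - δ) + (w + y))) :=
    mul_nonneg (by linarith) (mul_nonneg (by linarith) (by linarith))
  nlinarith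

theorem sup_b {y w δ : ℝ} (d0 : 0 ≤ δ) (h : y ≤ w) (hy : δ ≤ y) (hw : w ≤ 1 / 2) :
    h0 w δ - h0 y δ ≤ h0 w (1 / 2) - h0 y (1 / 2) := by
  rw [h0_ge hy, h0_ge (hy.trans h), h0_half_le hw, h0_half_le (h.trans hw)]
  have y0 : 0 ≤ y := d0.trans hy
  have k1 : 0 ≤ (w - y) * (y - δ) := mul_nonneg (by linarith) (by linarith)
  have e1 : w ^ 2 ≤ 1 / 4 := by nlinarith
  have e2 : y ^ 2 ≤ 1 / 4 := by nlinarith
  have e3 : w * y ≤ 1 / 4 := by nlinarith
  have k2 : 0 ≤ (w - y) * (1 / 4 + (w - y) / 2 - (w ^ 2 + w * y + y ^ 2) / 3) :=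
    mul_nonneg (by linarith) (by nlinarith)
  nlinarith

theorem sup_c {y w δ : ℝ} (h : y ≤ w) (hδ : δ ≤ 1 / 2) (hy : 1 / 2 ≤ y) :
    h0 w δ - h0 y δ ≤ h0 w (1 / 2) - h0 y (1 / 2) := by
  rw [h0_ge (hδ.trans hy), h0_ge ((hδ.trans hy).trans h), h0_ge hy, h0_ge (hy.trans h)]
  nlinarith [mul_nonneg (sub_nonneg.2 h) (sub_nonneg.2 hδ)]

theorem sup_mod {y w δ : ℝ} (y0 : 0 ≤ y) (h : y ≤ w) (d0 : 0 ≤ δ) (hδ : δ ≤ 1 / 2) :
    h0 w δ - h0 y δ ≤ h0 w (1 / 2) - h0 y (1 / 2) := by
  -- from `δ` upwards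
  have up : ∀ y' : ℝ, δ ≤ y' → y' ≤ w → h0 w δ - h0 y' δ ≤ h0 w (1 / 2) - h0 y' (1 / 2) := by
    intro y' h1 h2
    rcases le_total w (1 / 2) with h3 | h3
    · exact sup_b d0 h2 h1 h3
    · rcases le_total y' (1 / 2) with h4 | h4
      · have k1 := sup_b d0 h4 h1 le_rfl
        have k2 := sup_c h3 hδ le_rfl
        linarith
      · exact sup_c h2 hδ h4
  rcases le_total w δ with h1 | h1
  · exact sup_a y0 h h1 hδ
  · rcases le_total y δ with h2 | h2
    · have k1 := sup_a y0 h2 le_rfl hδ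
      have k2 := up δ le_rfl h1
      linarith
    · exact up y h2 h

/-! ### the loss functions at `A ≤ 1` -/

theorem LO_one : LO 1 = 3307 / 10000 := by
  unfold LO
  norm_num

theorem L1_one : L1 1 = 3194 / 10000 := by
  unfold L1
  norm_num

theorem LO_le_one {A : ℝ} (h : A ≤ 1) : LO A ≤ 3307 / 10000 := by
  unfold LO
  split_ifs with h1 h2 h3
  · norm_num
  · nlinarith
  · nlinarith
  · exfalso
    linarith

theorem L1_le_one {A : ℝ} (h : A ≤ 1) : L1 A ≤ 3194 / 10000 := by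
  unfold L1
  split_ifs with h1 h2 h3
  · norm_num
  · nlinarith
  · nlinarith
  · exfalso
    linarith

theorem L2_le_one {A : ℝ} (h : A ≤ 1) : L2 A ≤ 32 / 625 := by
  unfold L2
  split_ifs with h1 h2
  · norm_num
  · nlinarith

theorem L2_zero {A : ℝ} (h : A ≤ 17 / 25) : L2 A = 0 := by
  unfold L2
  rw [if_pos h]

theorem LO_small {A d : ℝ} (h : A ≤ d) (d0 : 0 ≤ d) (d1 : d ≤ 113 / 500) : LO A ≤ 1 / 2 * d := by
  unfold LO
  split_ifs with h1 h2 h3
  · linarith
  · nlinarith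
  · exfalso
    linarith
  · exfalso
    linarith

theorem L1_small {A d : ℝ} (h : A ≤ d) (d0 : 0 ≤ d) (d1 : d ≤ 113 / 500) : L1 A ≤ 1 / 2 * d := by
  unfold L1
  split_ifs with h1 h2 h3
  · linarith
  · nlinarith
  · exfalso
    linarith
  · exfalso
    linarith

/-! ### the own cell -/

/-- the own far cell of a row: `d` the height, `u` the entry of the row -/
structure OwnC (f w al be e d u : ℝ) : Prop where
  w0 : 0 < w
  w1 : w ≤ 13 / 20
  al0 : 0 ≤ al
  be0 : 0 ≤ be
  s0 : w ≤ al + be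
  e0 : 0 ≤ e
  e1 : e < 1
  he : e = 1 + w - al - be
  vol : f ≤ vl w al be
  own : w ≤ -u + max (d - e) 0

/-- the own term -/
noncomputable def oT (A δ : ℝ) : ℝ := if 1 ≤ A then hown (A - 1) δ else 0

section

variable {f w al be e d u A δ y : ℝ}

theorem OwnC.cap (h : OwnC f w al be e d u) (d0 : 0 ≤ d) : u ≤ d - w :=
  own_cap h.e0 d0 h.own

/-- the old volume bound -/
theorem OwnC.vol1 (h : OwnC f w al be e d u) : f ≤ w * (1 + w) ^ 2 / 4 - w ^ 3 / 3 := by
  obtain ⟨w0, w1, al0, be0, s0, e0, e1, he, vol, own⟩ := h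
  refine vol.trans ?_
  have h1 := vl_mono_r w0.le al0 be0 s0 (by linarith : be ≤ 1 + w - al)
  refine h1.trans ?_
  have a1 : al ≤ 1 + w := by linarith
  unfold vl
  rcases le_total (w - al) 0 with h2 | h2
  · rw [max_eq_right h2]
    rcases le_total (w - (1 + w - al)) 0 with h3 | h3
    · rw [max_eq_right h3]
      nlinarith [mul_nonneg w0.le (sq_nonneg (al - (1 + w) / 2))]
    · rw [max_eq_left h3]
      -- `al ≥ 1`
      obtain ⟨t, ht⟩ : ∃ t, t = al - 1 := ⟨_, rfl⟩
      have ea : al = 1 + t := by linarith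
      subst ea
      have t0 : 0 ≤ t := by linarith
      have tw : t ≤ w := by linarith
      have k1 : 0 ≤ t * ((w - t) * (w + t)) :=
        mul_nonneg t0 (mul_nonneg (by linarith) (by linarith))
      have k2 : 0 ≤ w * (1 - w) ^ 2 := mul_nonneg w0.le (sq_nonneg _)
      have k3 : 0 ≤ t * (w * (1 - w)) := mul_nonneg t0 (mul_nonneg w0.le (by linarith))
      nlinarith
  · rw [max_eq_left h2, max_eq_right (by linarith : w - (1 + w - al) ≤ 0)]
    -- `al ≤ w`
    obtain ⟨t, ht⟩ : ∃ t, t = w - al := ⟨_, rfl⟩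
    have ea : al = w - t := by linarith
    subst ea
    have t0 : 0 ≤ t := by linarith
    have k1 : 0 ≤ t * ((w - t) * (w + t)) :=
      mul_nonneg t0 (mul_nonneg al0 (by linarith))
    have k2 : 0 ≤ w * (1 - w) ^ 2 := mul_nonneg w0.le (sq_nonneg _)
    have k3 : 0 ≤ t * (w * (1 - w)) := mul_nonneg t0 (mul_nonneg w0.le (by linarith))
    nlinarith

/-- the volume bound by the sum of the components -/
theorem OwnC.vol2 (h : OwnC f w al be e d u) : f ≤ w * (1 + w - e) ^ 2 / 4 := by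
  obtain ⟨w0, w1, al0, be0, s0, e0, e1, he, vol, own⟩ := h
  have h1 := vl_le w0.le al0 be0 s0
  have h2 : al * be ≤ (1 + w - e) ^ 2 / 4 := by
    have : 1 + w - e = al + be := by linarith
    rw [this]
    nlinarith [sq_nonneg (al - be)]
  have h3 := mul_le_mul_of_nonneg_left h2 w0.le
  nlinarith

/-- the upper slot: comparison with the entry `d - y` -/
theorem own_up (h : OwnC f w al be e d u) (d0 : 0 ≤ d) (d1 : d ≤ 113 / 500) (lo : -(1 - d) ≤ u)
    (hδ : δ ≤ 11 / 20) (hal : al ≤ δ) (y0 : 0 ≤ y) (hy : y ≤ w) :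
    sx (43 / 50) d u + f ≤ sx (43 / 50) d (d - y) + h0 y δ + w * mm w δ ^ 2
      - 1 / 20 * (w - y) := by
  have hu := h.cap d0
  have h1 : sx (43 / 50) d u ≤ sx (43 / 50) d (d - w) := by
    refine sx_mono (by norm_num) (by linarith) lo (by linarith [h.w0]) hu ?_
    nlinarith [h.w0, mul_nonneg d0 h.w0.le]
  have h2 := sx_drop d0 d1 y0 hy h.w1
  have h3 := vl_own h.w0.le h.al0 h.be0 h.s0 (by linarith [h.he, h.e0]) hal hδ
  have h4 := h0_lip (d := δ) hy
  have h5 : δ * (w - y) ≤ 11 / 20 * (w - y) := mul_le_mul_of_nonneg_right hδ (by linarith)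
  linarith [h.vol]

theorem mm_extra (w0 : 0 ≤ w) (w1 : w ≤ 1) (hδ : δ ≤ 11 / 20) :
    w * mm w δ ^ 2 ≤ max (δ - 1 / 2) 0 / 3 ∧ w * mm w δ ^ 2 ≤ 1 / 20 * w := by
  have k1 := mm_le (d := δ) w0
  have k0 := mm_nonneg w δ
  have k2 : max (δ - 1 / 2) 0 ≤ 1 / 20 := max_le (by linarith) (by norm_num)
  have k3 : w * mm w δ ^ 2 ≤ 1 * mm w δ ^ 2 := mul_le_mul_of_nonneg_right w1 (sq_nonneg _)
  have k4 : mm w δ ^ 2 ≤ 1 / 20 := by nlinarith
  exact ⟨by nlinarith, by nlinarith⟩

/-- the value of an own cell alone below a flat row: `u ≤ -w` -/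
theorem sx_flat {c : ℝ} (hc : 0 ≤ c) (d1 : d ≤ 113 / 500) (lo : -(1 - d) ≤ u)
    (w0 : 0 ≤ w) (hu : u ≤ -w) : sx c d u ≤ -c * w - (1 - d) * w ^ 2 / 2 + w ^ 3 / 3 := by
  have h1 : sx c d u ≤ sx c d (-w) := by
    refine sx_mono hc (by linarith) lo (by linarith) hu ?_
    nlinarith [mul_nonneg (by linarith : 0 ≤ 1 - d) w0]
  rw [sx_of_nonpos (by linarith : -w ≤ 0)] at h1
  refine h1.trans (le_of_eq ?_)
  ring

/-- **The single upper slot, with the own cell.** -/
theorem own_O (h : OwnC f w al be e d u) (d0 : 0 ≤ d) (d1 : d ≤ 113 / 500) (lo : -(1 - d) ≤ u)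
    (hcap : u ≤ 1 - A + d) (hδ : δ ≤ 11 / 20) (alt : al ≤ δ ∨ A ≤ e) :
    sx (43 / 50) d u + f ≤ (43 / 50) ^ 2 / 2 + 3 / 5 * d - LO A + oT A δ := by
  have w0 := h.w0
  have w1 := h.w1
  have hu := h.cap d0
  have hu1 : u ≤ 1 := by linarith
  unfold oT
  split_ifs with hA
  · -- `1 ≤ A`
    have hal : al ≤ δ := alt.resolve_right (by linarith [h.e1])
    rcases le_total w (A - 1) with hw | hw
    · have h1 := LO_le d0 d1 lo hu1 hcap
      have h2 := vl_own_le w0.le h.al0 h.be0 h.s0 (by linarith [h.he, h.e0]) hal hδ hw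
        (by linarith)
      linarith [h.vol]
    · have h1 := own_up h d0 d1 lo hδ hal (by linarith : 0 ≤ A - 1) hw
      have h2 := LO_le (A := A) (u := d - (A - 1)) d0 d1 (by linarith) (by linarith) (by linarith)
      have h3 := (mm_extra (δ := δ) w0.le (by linarith) hδ).1
      rw [hown_eq]
      linarith
  · -- `A < 1`
    have hA' := LO_le_one (not_le.1 hA).le
    rcases alt with hal | hal
    · have h1 := own_up h d0 d1 lo hδ hal le_rfl w0.le
      have h2 := LO_le (A := 1) (u := d) d0 d1 (by linarith) (by linarith) (by linarith)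
      have h3 := (mm_extra (δ := δ) w0.le (by linarith) hδ).2
      rw [h0_zero (h.al0.trans hal), sub_zero] at h1
      rw [LO_one] at h2
      linarith
    · rcases le_total d e with hd | hd
      · have ho := h.own
        rw [max_eq_right (by linarith : d - e ≤ 0)] at ho
        have h1 := sx_flat (c := 43 / 50) (by norm_num) d1 lo w0.le (by linarith : u ≤ -w)
        have h2 := h.vol1
        have k1 : w ^ 2 ≤ 13 / 20 * w := by nlinarith
        have k2 : 0 ≤ w ^ 2 * (113 / 500 - d) := mul_nonneg (sq_nonneg w) (by linarith)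
        have k3 : 0 ≤ w ^ 3 := pow_nonneg w0.le 3
        nlinarith
      · have h1 := own_high w0 w1 h.vol1 h.e0 d0 d1 lo h.own
        have h2 := LO_small (hal.trans hd) d0 d1
        linarith

/-- **The upper slot of a pair, with the own cell.** -/
theorem own_T1 (h : OwnC f w al be e d u) (d0 : 0 ≤ d) (d1 : d ≤ 113 / 500) (lo : -(1 - d) ≤ u)
    (hcap : u ≤ 1 - A + d) (hδ : δ ≤ 11 / 20) (alt : al ≤ δ ∨ A ≤ e) :
    sx (43 / 50) d u + f ≤ (43 / 50) ^ 2 / 2 + 11 / 20 * d - L1 A + oT A δ := by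
  have w0 := h.w0
  have w1 := h.w1
  have hu := h.cap d0
  have hu1 : u ≤ 1 := by linarith
  unfold oT
  split_ifs with hA
  · -- `1 ≤ A`
    have hal : al ≤ δ := alt.resolve_right (by linarith [h.e1])
    rcases le_total w (A - 1) with hw | hw
    · have h1 := L1_le d0 d1 lo hu1 hcap
      have h2 := vl_own_le w0.le h.al0 h.be0 h.s0 (by linarith [h.he, h.e0]) hal hδ hw
        (by linarith)
      linarith [h.vol]
    · have h1 := own_up h d0 d1 lo hδ hal (by linarith : 0 ≤ A - 1) hw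
      have h2 := L1_le (A := A) (u := d - (A - 1)) d0 d1 (by linarith) (by linarith) (by linarith)
      have h3 := (mm_extra (δ := δ) w0.le (by linarith) hδ).1
      rw [hown_eq]
      linarith
  · -- `A < 1`
    have hA' := L1_le_one (not_le.1 hA).le
    rcases alt with hal | hal
    · have h1 := own_up h d0 d1 lo hδ hal le_rfl w0.le
      have h2 := L1_le (A := 1) (u := d) d0 d1 (by linarith) (by linarith) (by linarith)
      have h3 := (mm_extra (δ := δ) w0.le (by linarith) hδ).2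
      rw [h0_zero (h.al0.trans hal), sub_zero] at h1
      rw [L1_one] at h2
      linarith
    · rcases le_total d e with hd | hd
      · have ho := h.own
        rw [max_eq_right (by linarith : d - e ≤ 0)] at ho
        have h1 := sx_flat (c := 43 / 50) (by norm_num) d1 lo w0.le (by linarith : u ≤ -w)
        have h2 := h.vol1
        have k1 : w ^ 2 ≤ 13 / 20 * w := by nlinarith
        have k2 : 0 ≤ w ^ 2 * (113 / 500 - d) := mul_nonneg (sq_nonneg w) (by linarith)
        have k3 : 0 ≤ w ^ 3 := pow_nonneg w0.le 3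
        nlinarith
      · have h1 := own_high w0 w1 h.vol1 h.e0 d0 d1 lo h.own
        have h2 := L1_small (hal.trans hd) d0 d1
        linarith

end

end Pool.Agent.Helper51.TS
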