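import Pool.Agent.Helper51.TS.OwnLow
import Pool.Agent.Helper90.TS.N2Asm

/-!
# Rows with an own far cell, in a column with or without a class cell

`F = A i m` the class cell, `H = A x m` the own far cell of the row `x`.
-/

set_option autoImplicit false

namespace Pool.Agent.Helper51.TS

open Pool.Agent.Helper84.TS Pool.Agent.Helper23.TS Pool.Agent.Helper36.TS Pool.Agent.Helper44.TS
  Pool.Agent.Helper74.TS Pool.Agent.Helper90.TS Pool.Agent.Helper95.TS

/-- the volume of a cell seen from a column -/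
theorem wk_vl {f w d al be : ℝ} (W : Wk f w d al be) (h : w ≤ 1) : f = vl w (1 - al) (1 - be) := by
  have h1 := W.sum
  rw [W.vol, vl, show d - al = w - (1 - be) by linarith, show d - be = w - (1 - al) by linarith,
    max_eq_right (by linarith : w - 1 ≤ 0)]
  ring

section

variable {A : Fin 4 → Fin 4 → Option (Fin 4 → ℝ)} {P : Fin 4 → Fin 4 → ℝ}

/-- the volume of a far cell -/
theorem far_vl (h : OF A) {i m x y : Fin 4} {F : Fin 4 → ℝ} (hF : A i m = some F)
    (hn : [i, m, x, y].Nodup) : fcl i F = vl (2 + F m) (cmp i y F) (cmp i x F) := by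
  have hmi : m ≠ i := (nodup_ne hn).1
  have hf := h.far i m F hmi hF
  exact wk_vl (wk_far (h.cell i m F hF) hn hf) (by linarith)

/-- the height of a far cell in terms of the components -/
theorem far_ht (h : OF A) {i m x y : Fin 4} {F : Fin 4 → ℝ} (hF : A i m = some F)
    (hn : [i, m, x, y].Nodup) : F i - 1 = 1 + (2 + F m) - cmp i y F - cmp i x F := by
  have hmi : m ≠ i := (nodup_ne hn).1
  have := (wk_far (h.cell i m F hF) hn (h.far i m F hmi hF)).sum
  unfold Helper90.TS.cmp
  linarith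

/-- the data of the own far cell `A x m` of the row `x` -/
theorem own_data (h : OF A) {i m x y : Fin 4} {H : Fin 4 → ℝ} (hx : A x x = some (P x))
    (hH : A x m = some H) (hn : [x, m, i, y].Nodup) (hw : 2 + H m ≤ 13 / 20) :
    OwnC (fcl x H) (2 + H m) (cmp x y H) (cmp x i H) (H x - 1) (P x x - 1) (-P x m) := by
  have hmx : m ≠ x := (nodup_ne hn).1
  have hf := h.far x m H hmx hH
  have W := wk_far (h.cell x m H hH) hn hf
  obtain ⟨b1, b2, b3, b4, b5, b6, b7, b8, b9⟩ := far_bounds (h.cell x m H hH) hn hf.le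
  refine ⟨b1, hw, ?_, ?_, ?_, b3, b4, ?_, ?_, own_main h hx hH hmx⟩
  · unfold Helper90.TS.cmp
    linarith
  · unfold Helper90.TS.cmp
    linarith
  · unfold Helper90.TS.cmp
    linarith
  · exact far_ht h hH hn
  · exact (far_vl h hH hn).le

/-- the alternative of the class cell and the own cell -/
theorem own_alt (h : OF A) {i m x y : Fin 4} {F H : Fin 4 → ℝ} (hF : A i m = some F)
    (hH : A x m = some H) (hn : [i, m, x, y].Nodup) :
    cmp x y H ≤ F i - 1 ∨ cmp i y F ≤ H x - 1 := by
  have hmi : m ≠ i := (nodup_ne hn).1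
  have hmx : m ≠ x := by
    clear * - hn; revert hn; revert i m x y; decide
  have f1 := h.far i m F hmi hF
  have f2 := h.far x m H hmx hH
  have t := two_rst h hF hH hn
  have t2 : 1 ≤ max (F y) (H y) + (F i - 1) + (H x - 1) :=
    (le_min (by linarith) (by linarith)).trans t
  unfold Helper90.TS.cmp
  rcases le_total (F y) (H y) with h1 | h1
  · rw [max_eq_right h1] at t2
    left
    linarith
  · rw [max_eq_left h1] at t2
    right
    linarith

/-- the own term is nonnegative -/
theorem oT_nonneg {a δ : ℝ} (h0' : 0 ≤ δ) (h1 : δ ≤ 11 / 20) : 0 ≤ oT a δ := by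
  unfold oT
  split_ifs with h
  · have k := h0_mono (w := 0) (y := a - 1) le_rfl (by linarith) h0' h1
    rw [h0_zero h0'] at k
    have := le_max_right (δ - 1 / 2) 0
    rw [hown_eq]
    linarith
  · exact le_rfl

/-- what a row needs: main cell, small height, small own far cells -/
structure RowD (A : Fin 4 → Fin 4 → Option (Fin 4 → ℝ)) (P : Fin 4 → Fin 4 → ℝ) (x : Fin 4) :
    Prop where
  hx : A x x = some (P x)
  d1 : P x x - 1 ≤ 113 / 500
  wx : ∀ m H, m ≠ x → A x m = some H → 2 + H m ≤ 13 / 20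

theorem _root_.Pool.Agent.Helper90.TS.Rows.rx {i j x y : Fin 4} (R : Rows A P i j x y) :
    RowD A P x := ⟨R.hx, by linarith [R.ds, R.dy], R.wx⟩

theorem _root_.Pool.Agent.Helper90.TS.Rows.ry {i j x y : Fin 4} (R : Rows A P i j x y) :
    RowD A P y := ⟨R.hy, by linarith [R.ds, R.dx], R.wy⟩

/-- the upper slot without class cell -/
theorem row_free1 (h : OF A) {m x : Fin 4} (R : RowD A P x) (hm : m ≠ x) :
    sx (43 / 50) (P x x - 1) (-P x m) + fo x (A x m) ≤
      (43 / 50) ^ 2 / 2 + 11 / 20 * (P x x - 1) := by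
  obtain ⟨d0, -, lo, hi⟩ := mr_main h R.hx hm
  rcases hH : A x m with _ | H
  · have := slot_high d0 R.d1 lo hi
    simp only [fo]
    linarith
  · obtain ⟨i, y, hn⟩ := exists_rest2 (Ne.symm hm)
    have o := own_data h R.hx hH hn (R.wx m H hm hH)
    have := own_high o.w0 o.w1 o.vol1 o.e0 d0 R.d1 lo o.own
    simp only [fo]
    linarith

/-- the lower slot without class cell -/
theorem row_free2 (h : OF A) {m x : Fin 4} (R : RowD A P x) (hm : m ≠ x) :
    sx (8 / 25) (P x x - 1) (-P x m) + fo x (A x m) ≤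
      (8 / 25) ^ 2 / 2 + 11 / 20 * (P x x - 1) := by
  obtain ⟨d0, -, lo, hi⟩ := mr_main h R.hx hm
  rcases hH : A x m with _ | H
  · have := slot_low d0 R.d1 lo hi
    simp only [fo]
    linarith
  · obtain ⟨i, y, hn⟩ := exists_rest2 (Ne.symm hm)
    have o := own_data h R.hx hH hn (R.wx m H hm hH)
    exact own_low o.w0 o.w1 o.vol1 o.e0 d0 R.d1 lo o.own

section

variable {i m x y : Fin 4} {F : Fin 4 → ℝ}

/-- **single upper slot under the cap of the class cell `F = A i m`** -/
theorem row_O (h : OF A) (R : RowD A P x) (hn : [i, m, x, y].Nodup) (hF : A i m = some F)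
    (hδ : F i - 1 < 11 / 20) (hk : -P x m ≤ (F y + (F i - 1)) + (P x x - 1)) :
    sx (43 / 50) (P x x - 1) (-P x m) + fo x (A x m) ≤
      (43 / 50) ^ 2 / 2 + 3 / 5 * (P x x - 1) - LO (cmp i y F) + oT (cmp i y F) (F i - 1) := by
  have hmi : m ≠ i := (nodup_ne hn).1
  have hmx : m ≠ x := by
    clear * - hn; revert hn; revert i m x y; decide
  have hn' : [x, m, i, y].Nodup := by
    clear * - hn; revert hn; revert i m x y; decide
  have hδ0 := (wk_far (h.cell i m F hF) hn (h.far i m F hmi hF)).d0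
  obtain ⟨d0, -, lo, hi⟩ := mr_main h R.hx hmx
  have hc : -P x m ≤ 1 - cmp i y F + (P x x - 1) := by
    unfold Helper90.TS.cmp
    linarith
  rcases hH : A x m with _ | H
  · have := LO_le d0 R.d1 lo hi hc
    have := oT_nonneg (a := cmp i y F) hδ0 hδ.le
    simp only [fo]
    linarith
  · exact own_O (own_data h R.hx hH hn' (R.wx m H hmx hH)) d0 R.d1 lo hc hδ.le
      (own_alt h hF hH hn)

/-- **upper slot of a pair under the cap** -/
theorem row_T1 (h : OF A) (R : RowD A P x) (hn : [i, m, x, y].Nodup) (hF : A i m = some F)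
    (hδ : F i - 1 < 11 / 20) (hk : -P x m ≤ (F y + (F i - 1)) + (P x x - 1)) :
    sx (43 / 50) (P x x - 1) (-P x m) + fo x (A x m) ≤
      (43 / 50) ^ 2 / 2 + 11 / 20 * (P x x - 1) - L1 (cmp i y F) + oT (cmp i y F) (F i - 1) := by
  have hmi : m ≠ i := (nodup_ne hn).1
  have hmx : m ≠ x := by
    clear * - hn; revert hn; revert i m x y; decide
  have hn' : [x, m, i, y].Nodup := by
    clear * - hn; revert hn; revert i m x y; decide
  have hδ0 := (wk_far (h.cell i m F hF) hn (h.far i m F hmi hF)).d0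
  obtain ⟨d0, -, lo, hi⟩ := mr_main h R.hx hmx
  have hc : -P x m ≤ 1 - cmp i y F + (P x x - 1) := by
    unfold Helper90.TS.cmp
    linarith
  rcases hH : A x m with _ | H
  · have := L1_le d0 R.d1 lo hi hc
    have := oT_nonneg (a := cmp i y F) hδ0 hδ.le
    simp only [fo]
    linarith
  · exact own_T1 (own_data h R.hx hH hn' (R.wx m H hmx hH)) d0 R.d1 lo hc hδ.le
      (own_alt h hF hH hn)

/-- **lower slot of a pair under the cap** -/
theorem row_T2 (h : OF A) (R : RowD A P x) (hn : [i, m, x, y].Nodup) (hF : A i m = some F)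
    (hδ : F i - 1 < 11 / 20) (hk : -P x m ≤ (F y + (F i - 1)) + (P x x - 1)) :
    sx (8 / 25) (P x x - 1) (-P x m) + fo x (A x m) ≤
      (8 / 25) ^ 2 / 2 + 11 / 20 * (P x x - 1) - L2 (cmp i y F) + oT (cmp i y F) (F i - 1) := by
  have hmi : m ≠ i := (nodup_ne hn).1
  have hmx : m ≠ x := by
    clear * - hn; revert hn; revert i m x y; decide
  have hn' : [x, m, i, y].Nodup := by
    clear * - hn; revert hn; revert i m x y; decide
  have hδ0 := (wk_far (h.cell i m F hF) hn (h.far i m F hmi hF)).d0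
  obtain ⟨d0, -, lo, hi⟩ := mr_main h R.hx hmx
  have hc : -P x m ≤ 1 - cmp i y F + (P x x - 1) := by
    unfold Helper90.TS.cmp
    linarith
  rcases hH : A x m with _ | H
  · have := L2_le d0 R.d1 lo hi hc
    have := oT_nonneg (a := cmp i y F) hδ0 hδ.le
    simp only [fo]
    linarith
  · exact own_T2 (own_data h R.hx hH hn' (R.wx m H hmx hH)) d0 R.d1 lo hc hδ.le
      (own_alt h hF hH hn)

end

/-! ### The gains -/

/-- the gain `g` of an `O` cell: `w` the width, `a` the component capping the row, `b` the other -/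
def GainO (w a b g : ℝ) : Prop :=
  (11 / 20 ≤ 1 + w - a - b ∧ g ≤ vl w a b) ∨
    (1 + w - a - b < 11 / 20 ∧ g ≤ vl w a b - LO a + oT a (1 + w - a - b))

/-- the gain `g` of a `T` cell -/
def GainT (w a b g : ℝ) : Prop :=
  (11 / 20 ≤ 1 + w - a - b ∧ g ≤ vl w a b) ∨
    (1 + w - a - b < 11 / 20 ∧
      g ≤ vl w a b - (L1 a + L2 b) + (oT a (1 + w - a - b) + oT b (1 + w - a - b))) ∨
    (1 + w - a - b < 11 / 20 ∧
      g ≤ vl w a b - (L2 a + L1 b) + (oT a (1 + w - a - b) + oT b (1 + w - a - b)))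

/-- **the `T` column without class cell** -/
theorem col_T0 {i j x y : Fin 4} (R : Rows A P i j x y) :
    col2 A P (43 / 50) (43 / 50) (27 / 50) j x y ≤
      421 / 1000 + 11 / 20 * ((P x x - 1) + (P y y - 1)) := by
  have hn := R.hn
  have n1 : j ≠ x ∧ j ≠ y := by
    clear * - hn; revert hn; revert i j x y; decide
  have a1 := row_free1 R.of R.rx n1.1
  have a2 := row_free2 R.of R.rx n1.1
  have b1 := row_free1 R.of R.ry n1.2
  have b2 := row_free2 R.of R.ry n1.2
  unfold col2
  rcases le_total (-P y j) (-P x j) with h | h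
  · have e := sx_sub (43 / 50) (27 / 50) (P y y - 1) (-P y j)
    rw [show (43 : ℝ) / 50 - 27 / 50 = 8 / 25 by norm_num] at e
    rw [min_eq_right h]
    linarith
  · have e := sx_sub (43 / 50) (27 / 50) (P x x - 1) (-P x j)
    rw [show (43 : ℝ) / 50 - 27 / 50 = 8 / 25 by norm_num] at e
    rw [min_eq_left h]
    linarith

/-- **the `T` column with class cell** -/
theorem col_T1 {i j x y : Fin 4} (R : Rows A P i j x y) {F : Fin 4 → ℝ} (hF : A i j = some F)
    (k1 : KA P i j x y F) (k2 : KA P i j y x F) :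
    ∃ g, GainT (2 + F j) (cmp i x F) (cmp i y F) g ∧
      col2 A P (43 / 50) (43 / 50) (27 / 50) j x y + fcl i F ≤
        421 / 1000 + 11 / 20 * ((P x x - 1) + (P y y - 1)) + g := by
  have hn := R.hn
  have hn' : [i, j, y, x].Nodup := by
    clear * - hn; revert hn; revert i j x y; decide
  have hv := far_vl R.of hF hn'
  have hh := far_ht R.of hF hn'
  by_cases hδ : F i - 1 < 11 / 20
  · have a1 := row_T1 R.of R.rx hn hF hδ (k1 hδ)
    have a2 := row_T2 R.of R.rx hn hF hδ (k1 hδ)
    have b1 := row_T1 R.of R.ry hn' hF hδ (k2 hδ)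
    have b2 := row_T2 R.of R.ry hn' hF hδ (k2 hδ)
    rcases le_total (-P y j) (-P x j) with h | h
    · refine ⟨vl (2 + F j) (cmp i x F) (cmp i y F) - (L2 (cmp i x F) + L1 (cmp i y F)) +
        (oT (cmp i x F) (F i - 1) + oT (cmp i y F) (F i - 1)), Or.inr (Or.inr ⟨?_, ?_⟩), ?_⟩
      · rw [← hh]
        exact hδ
      · rw [← hh]
      · have e := sx_sub (43 / 50) (27 / 50) (P y y - 1) (-P y j)
        rw [show (43 : ℝ) / 50 - 27 / 50 = 8 / 25 by norm_num] at e
        unfold col2
        rw [min_eq_right h, hv]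
        linarith
    · refine ⟨vl (2 + F j) (cmp i x F) (cmp i y F) - (L1 (cmp i x F) + L2 (cmp i y F)) +
        (oT (cmp i x F) (F i - 1) + oT (cmp i y F) (F i - 1)), Or.inr (Or.inl ⟨?_, ?_⟩), ?_⟩
      · rw [← hh]
        exact hδ
      · rw [← hh]
      · have e := sx_sub (43 / 50) (27 / 50) (P x x - 1) (-P x j)
        rw [show (43 : ℝ) / 50 - 27 / 50 = 8 / 25 by norm_num] at e
        unfold col2
        rw [min_eq_left h, hv]
        linarith
  · refine ⟨vl (2 + F j) (cmp i x F) (cmp i y F), Or.inl ⟨?_, le_rfl⟩, ?_⟩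
    · rw [← hh]
      exact not_lt.1 hδ
    · have := col_T0 R
      rw [hv]
      linarith

/-- **the `O` column without class cells** -/
theorem col_O0 {i j x y : Fin 4} (R : Rows A P i j x y) :
    col1 A P (43 / 50) x y ≤ 1849 / 5000 + 3 / 5 * (P y y - 1) := by
  have hn := R.hn
  have n1 : x ≠ y := by
    clear * - hn; revert hn; revert i j x y; decide
  have a1 := row_free1 R.of R.ry n1
  have := R.dy
  unfold col1
  linarith

/-- **the `O` column with one class cell** -/
theorem col_O1 {i j x y : Fin 4} (R : Rows A P i j x y) {F : Fin 4 → ℝ} (hF : A i x = some F)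
    (k1 : KA P i x y j F) :
    ∃ g, GainO (2 + F x) (cmp i j F) (cmp i y F) g ∧
      col1 A P (43 / 50) x y + fcl i F ≤ 1849 / 5000 + 3 / 5 * (P y y - 1) + g := by
  have hn := R.hn
  have hn1 : [i, x, y, j].Nodup := by
    clear * - hn; revert hn; revert i j x y; decide
  have hv := far_vl R.of hF hn1
  have hh := far_ht R.of hF hn1
  by_cases hδ : F i - 1 < 11 / 20
  · have a1 := row_O R.of R.ry hn1 hF hδ (k1 hδ)
    refine ⟨vl (2 + F x) (cmp i j F) (cmp i y F) - LO (cmp i j F) +
      oT (cmp i j F) (F i - 1), Or.inr ⟨?_, ?_⟩, ?_⟩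
    · rw [← hh]
      exact hδ
    · rw [← hh]
    · unfold col1
      rw [hv]
      linarith
  · refine ⟨vl (2 + F x) (cmp i j F) (cmp i y F), Or.inl ⟨?_, le_rfl⟩, ?_⟩
    · rw [← hh]
      exact not_lt.1 hδ
    · have := col_O0 R
      rw [hv]
      linarith

end

end Pool.Agent.Helper51.TS
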