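import Pool.Agent.Helper51.TS.OwnVol
import Pool.Agent.Helper95.TS.Slots2

/-!
# The slot of a low row with an own far cell: the slot at `d - w` and the volume

Upper slot (`43/50`): the slot falls faster in `w` than the volume grows. Lower slot (`8/25`):
polynomial inequalities in `w`, `y`, after the elimination of `d`.
-/

set_option autoImplicit false

namespace Pool.Agent.Helper51.TS

open Pool.Agent.Helper36.TS Pool.Agent.Helper74.TS

/-- the upper slot falls with the slope at least `3/5` -/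
theorem sx_drop {d y w : ℝ} (d0 : 0 ≤ d) (d1 : d ≤ 113 / 500) (y0 : 0 ≤ y) (h : y ≤ w)
    (w1 : w ≤ 13 / 20) : sx (43 / 50) d (d - w) + 3 / 5 * (w - y) ≤ sx (43 / 50) d (d - y) := by
  rcases le_total w d with h1 | h1
  · rw [sx_of_nonneg (by linarith : 0 ≤ d - w) (by linarith),
      sx_of_nonneg (by linarith : 0 ≤ d - y) (by linarith)]
    have k : 0 ≤ (w - y) * (43 / 50 - 3 / 5 - (1 - d) * ((d - y) + (d - w)) / 2) := by
      apply mul_nonneg (by linarith)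
      nlinarith [mul_nonneg d0 (by linarith : 0 ≤ (d - y) + (d - w))]
    nlinarith
  · rcases le_total y d with h2 | h2
    · rw [sx_of_nonpos (by linarith : d - w ≤ 0), sx_of_nonneg (by linarith : 0 ≤ d - y)
        (by linarith)]
      obtain ⟨a, ha⟩ : ∃ a, a = d - y := ⟨_, rfl⟩
      obtain ⟨b, hb⟩ : ∃ b, b = w - d := ⟨_, rfl⟩
      have e1 : d - w = -b := by linarith
      have e2 : w - y = a + b := by linarith
      rw [← ha, e1, e2]
      have a0 : 0 ≤ a := by linarith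
      have b0 : 0 ≤ b := by linarith
      have k1 : a ^ 2 ≤ 113 / 500 * a := by nlinarith
      have k2 : 0 ≤ b ^ 2 * ((1 - d) / 2 - b / 3) := mul_nonneg (sq_nonneg b) (by linarith)
      have k3 : 0 ≤ d * a ^ 2 := mul_nonneg d0 (sq_nonneg a)
      nlinarith
    · rw [sx_of_nonpos (by linarith : d - w ≤ 0), sx_of_nonpos (by linarith : d - y ≤ 0)]
      obtain ⟨a, ha⟩ : ∃ a, a = y - d := ⟨_, rfl⟩
      obtain ⟨s, hs⟩ : ∃ s, s = w - y := ⟨_, rfl⟩
      have e1 : d - w = -(a + s) := by linarith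
      have e2 : d - y = -a := by linarith
      rw [← hs, e1, e2]
      have a0 : 0 ≤ a := by linarith
      have s0 : 0 ≤ s := by linarith
      have k1 : 0 ≤ s * ((a + s) * (1 - d - (a + s))) :=
        mul_nonneg s0 (mul_nonneg (by linarith) (by linarith))
      have k2 : 0 ≤ s * (a * (1 - d - (a + s))) :=
        mul_nonneg s0 (mul_nonneg a0 (by linarith))
      have k3 : 0 ≤ s * (a * s) := mul_nonneg s0 (mul_nonneg a0 s0)
      have k4 : 0 ≤ s * (s * s) := mul_nonneg s0 (mul_nonneg s0 s0)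
      nlinarith

/-- the positive part in the elimination of `d` -/
noncomputable def GG (w : ℝ) : ℝ := max (w - w ^ 2 / 2 - 23 / 100) 0

theorem GG_nonneg (w : ℝ) : 0 ≤ GG w := le_max_right _ _

/-- **elimination of `d`** in the lower slot -/
theorem low_elim {d w : ℝ} (d0 : 0 ≤ d) (d1 : d ≤ 113 / 500) (w0 : 0 ≤ w) (w1 : w ≤ 13 / 20) :
    sx (8 / 25) d (d - w) + (w / 4 + w ^ 2 / 2 - w ^ 3 / 3) ≤
      11 / 20 * d - 7 / 100 * w + 25 / 46 * GG w ^ 2 := by
  rcases le_total w d with h1 | h1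
  · rw [sx_of_nonneg (by linarith : 0 ≤ d - w) (by linarith)]
    have k0 := sq_nonneg (GG w)
    have k1 : 0 ≤ d * (23 / 100 - w) := mul_nonneg d0 (by linarith)
    have k2 : 0 ≤ d ^ 2 * (1 - d) := mul_nonneg (sq_nonneg d) (by linarith)
    have k3 : 0 ≤ d * (w * (d - w)) := mul_nonneg d0 (mul_nonneg w0 (by linarith))
    have k4 : 0 ≤ w ^ 3 := pow_nonneg w0 3
    have k5 : 0 ≤ d ^ 2 * w := mul_nonneg (sq_nonneg d) w0
    nlinarith
  · rw [sx_of_nonpos (by linarith : d - w ≤ 0)]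
    have k1 : d * (w - w ^ 2 / 2 - 23 / 100) ≤ d * GG w :=
      mul_le_mul_of_nonneg_left (le_max_left _ _) d0
    have k2 : 46 / 100 * d ^ 2 ≤ d ^ 2 / 2 - d ^ 3 / 6 := by
      have : 0 ≤ d ^ 2 * (113 / 500 - d) := mul_nonneg (sq_nonneg d) (by linarith)
      nlinarith [sq_nonneg d]
    have k3 : d * GG w ≤ 46 / 100 * d ^ 2 + 25 / 46 * GG w ^ 2 := by
      nlinarith [sq_nonneg (46 / 100 * d - GG w / 2)]
    have e : sx (8 / 25) d (d - w) = sx (8 / 25) d (d - w) := rfl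
    have k4 : 8 / 25 * (d - w) - (1 - d) * (d - w) ^ 2 / 2 + (-(d - w)) ^ 3 / 3 +
        (w / 4 + w ^ 2 / 2 - w ^ 3 / 3) = 11 / 20 * d - 7 / 100 * w +
          d * (w - w ^ 2 / 2 - 23 / 100) - (d ^ 2 / 2 - d ^ 3 / 6) := by ring
    linarith

/-- bounds of `GG` -/
theorem GG_zero {w : ℝ} (w0 : 0 ≤ w) (h : w ≤ 13 / 50) : GG w = 0 :=
  max_eq_right (by nlinarith [sq_nonneg (w - 13 / 50)])

theorem GG_le_a (w : ℝ) (h : 1 / 4 ≤ w) : GG w ≤ 3 / 4 * (w - 1 / 4) :=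
  max_le (by nlinarith [sq_nonneg (w - 1 / 4)]) (by linarith)

theorem GG_le_b (w : ℝ) (h : 21 / 100 ≤ w) : GG w ≤ 1 / 2 * w - 21 / 200 :=
  max_le (by nlinarith [sq_nonneg (w - 1 / 2)]) (by linarith)

theorem GG_le_c (w : ℝ) (h : 1 / 10 ≤ w) : GG w ≤ 7 / 20 * w - 3 / 160 :=
  max_le (by nlinarith [sq_nonneg (w - 13 / 20)]) (by linarith)

theorem sq_le_sq74 {a b : ℝ} (h0 : 0 ≤ a) (h : a ≤ b) : a ^ 2 ≤ b ^ 2 :=
  pow_le_pow_left₀ h0 h 2

/-- the cubic part for `w ≥ 1/2`, with the linear allowance -/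
theorem GG_a {w y : ℝ} (y0 : 0 ≤ y) (y1 : y ≤ 1 / 4) (h : y ≤ w) (w1 : w ≤ 13 / 20) :
    -(7 / 100) * w + 25 / 46 * GG w ^ 2 ≤ -(7 / 100) * y + 9 / 100 * y ^ 2 - y ^ 3 / 3 ∧
    (1 / 2 ≤ w → ∀ e : ℝ, 0 ≤ e → e ≤ 1 / 20 →
      -(7 / 100) * w + 25 / 46 * GG w ^ 2 + (w - 1 / 2) ^ 3 / 3 + e * (w - 7 / 12 - y ^ 2) ≤
        -(7 / 100) * y + 9 / 100 * y ^ 2 - y ^ 3 / 3) := by
  have hy : 0 ≤ y ^ 2 * (9 / 100 - y / 3) := mul_nonneg (sq_nonneg y) (by linarith)
  have hG := GG_nonneg w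
  constructor
  · rcases le_total w (13 / 50) with h1 | h1
    · rw [GG_zero (by linarith) h1]
      nlinarith
    · rcases le_total w (9 / 20) with h2 | h2
      · have k := sq_le_sq74 hG (GG_le_a w (by linarith))
        nlinarith [mul_nonneg (by linarith : 0 ≤ w - 1 / 4) (by linarith : 0 ≤ 9 / 20 - w)]
      · have k := sq_le_sq74 hG (GG_le_c w (by linarith))
        nlinarith [mul_nonneg (by linarith : 0 ≤ w - 9 / 20) (by linarith : 0 ≤ 13 / 20 - w)]
  · intro h1 e e0 e1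
    have k := sq_le_sq74 hG (GG_le_c w (by linarith))
    have k2 : (w - 1 / 2) ^ 3 ≤ 9 / 400 * (w - 1 / 2) := by
      have : (w - 1 / 2) ^ 2 ≤ 9 / 400 := by nlinarith
      have := mul_le_mul_of_nonneg_right this (by linarith : 0 ≤ w - 1 / 2)
      nlinarith
    have k3 : e * (w - 7 / 12 - y ^ 2) ≤ 1 / 20 * (1 / 15 - y ^ 2) + 1 / 20 * 0 ∨
        e * (w - 7 / 12 - y ^ 2) ≤ 0 := by
      rcases le_total (w - 7 / 12 - y ^ 2) 0 with h3 | h3
      · exact Or.inr (mul_nonpos_of_nonneg_of_nonpos e0 h3)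
      · left
        have := mul_le_mul_of_nonneg_right e1 h3
        linarith
    have k4 : 0 ≤ (w - 1 / 2) * (13 / 20 - w) := mul_nonneg (by linarith) (by linarith)
    have k5 : 0 ≤ y * (1 / 4 - y) := mul_nonneg y0 (by linarith)
    rcases k3 with k3 | k3 <;> nlinarith

/-- `y ≥ 1/4` -/
theorem cub_min {y : ℝ} (y0 : 0 ≤ y) (y1 : y ≤ 13 / 20) :
    -(336 / 10000) ≤ -(23 / 100) * y + y ^ 2 / 2 - y ^ 3 / 3 := by
  rcases le_total y (1 / 2) with h | h
  · nlinarith [mul_nonneg y0 (sq_nonneg (y - 359 / 1000)), sq_nonneg (y - 359 / 1000),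
      mul_nonneg (by linarith : 0 ≤ 1 / 2 - y) (sq_nonneg (y - 359 / 1000))]
  · nlinarith [mul_nonneg (by linarith : 0 ≤ y - 1 / 2) (by linarith : 0 ≤ 13 / 20 - y),
      mul_nonneg (mul_nonneg (by linarith : 0 ≤ y - 1 / 2) (by linarith : 0 ≤ 13 / 20 - y)) y0]

theorem GG_b {w y : ℝ} (y0 : 1 / 4 ≤ y) (h : y ≤ w) (w1 : w ≤ 13 / 20) :
    -(7 / 100) * w + 25 / 46 * GG w ^ 2 ≤
      19 / 1250 - 23 / 100 * y + y ^ 2 / 2 - y ^ 3 / 3 ∧
    (1 / 2 ≤ w → ∀ e : ℝ, 0 ≤ e → e ≤ 1 / 20 →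
      -(7 / 100) * w + 25 / 46 * GG w ^ 2 + (w - 1 / 2) ^ 3 / 3 + e * (w - 7 / 12 - y ^ 2) ≤
        19 / 1250 - 23 / 100 * y + y ^ 2 / 2 - y ^ 3 / 3) := by
  have hG := GG_nonneg w
  have hc := cub_min (by linarith : 0 ≤ y) (h.trans w1)
  constructor
  · rcases le_total w (7 / 25) with h1 | h1
    · have k := sq_le_sq74 hG (GG_le_a w (by linarith))
      have k1 : GG w ≤ 9 / 400 := by linarith [GG_le_a w (by linarith)]
      have k2 : GG w ^ 2 ≤ 81 / 160000 := by nlinarith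
      have k3 : -(139584 / 10000000) ≤ -(16 / 100) * y + y ^ 2 / 2 - y ^ 3 / 3 := by
        nlinarith [mul_nonneg (by linarith : 0 ≤ y - 1 / 4) (by linarith : 0 ≤ 7 / 25 - y),
          mul_nonneg (mul_nonneg (by linarith : 0 ≤ y - 1 / 4) (by linarith : 0 ≤ 7 / 25 - y))
            (by linarith : 0 ≤ y)]
      linarith
    · rcases le_total w (1 / 2) with h2 | h2
      · have k := sq_le_sq74 hG (GG_le_b w (by linarith))
        nlinarith [mul_nonneg (by linarith : 0 ≤ w - 7 / 25) (by linarith : 0 ≤ 1 / 2 - w)]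
      · have k := sq_le_sq74 hG (GG_le_c w (by linarith))
        nlinarith [mul_nonneg (by linarith : 0 ≤ w - 1 / 2) (by linarith : 0 ≤ 13 / 20 - w)]
  · intro h1 e e0 e1
    have k := sq_le_sq74 hG (GG_le_c w (by linarith))
    have k2 : (w - 1 / 2) ^ 3 ≤ 9 / 400 * (w - 1 / 2) := by
      have : (w - 1 / 2) ^ 2 ≤ 9 / 400 := by nlinarith
      have := mul_le_mul_of_nonneg_right this (by linarith : 0 ≤ w - 1 / 2)
      nlinarith
    have hy2 : 1 / 16 ≤ y ^ 2 := by nlinarith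
    have k3 : e * (w - 7 / 12 - y ^ 2) ≤ 1 / 20 * (1 / 240) := by
      have : w - 7 / 12 - y ^ 2 ≤ 1 / 240 := by linarith
      calc e * (w - 7 / 12 - y ^ 2) ≤ e * (1 / 240) := mul_le_mul_of_nonneg_left this e0
        _ ≤ 1 / 20 * (1 / 240) := mul_le_mul_of_nonneg_right e1 (by norm_num)
    have k4 : 0 ≤ (w - 1 / 2) * (13 / 20 - w) := mul_nonneg (by linarith) (by linarith)
    nlinarith

/-- the lower slot alone with an own cell of height at least `..` : `y = 0` without own term -/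
theorem GG_c {w e : ℝ} (w0 : 0 ≤ w) (w1 : w ≤ 13 / 20) (e0 : 0 ≤ e) (e1 : e ≤ 1 / 20) :
    (w ≤ 1 / 2 + e → -(7 / 100) * w + 25 / 46 * GG w ^ 2 + e * w ^ 2 ≤ 0) ∧
    (1 / 2 ≤ w → -(7 / 100) * w + 25 / 46 * GG w ^ 2 + (w - 1 / 2) ^ 3 / 3 + e * (w - 1 / 4) ≤
      0) := by
  have hG := GG_nonneg w
  constructor
  · intro h
    have he : e * w ^ 2 ≤ 1 / 20 * w ^ 2 := mul_le_mul_of_nonneg_right e1 (sq_nonneg w)
    rcases le_total w (13 / 50) with h1 | h1
    · rw [GG_zero w0 h1]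
      nlinarith
    · rcases le_total w (2 / 5) with h2 | h2
      · have k := sq_le_sq74 hG (GG_le_a w (by linarith))
        nlinarith [mul_nonneg (by linarith : 0 ≤ w - 13 / 50) (by linarith : 0 ≤ 2 / 5 - w)]
      · have k := sq_le_sq74 hG (GG_le_c w (by linarith))
        nlinarith [mul_nonneg (by linarith : 0 ≤ w - 2 / 5) (by linarith : 0 ≤ 11 / 20 - w)]
  · intro h1
    have k := sq_le_sq74 hG (GG_le_c w (by linarith))
    have k2 : (w - 1 / 2) ^ 3 ≤ 9 / 400 * (w - 1 / 2) := by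
      have : (w - 1 / 2) ^ 2 ≤ 9 / 400 := by nlinarith
      have := mul_le_mul_of_nonneg_right this (by linarith : 0 ≤ w - 1 / 2)
      nlinarith
    have k3 : e * (w - 1 / 4) ≤ 1 / 20 * (w - 1 / 4) :=
      mul_le_mul_of_nonneg_right e1 (by linarith)
    nlinarith [mul_nonneg (by linarith : 0 ≤ w - 1 / 2) (by linarith : 0 ≤ 13 / 20 - w)]

end Pool.Agent.Helper51.TS
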