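import Pool.Agent.Helper74.TS.Far

/-!
# The volume of an own far cell in a column with a capped entry

`w` the width of the own cell, `al = 1 - cap` towards the class of the capping cell, `al ≤ δ`.
-/

set_option autoImplicit false

namespace Pool.Agent.Helper51.TS

open Pool.Agent.Helper36.TS Pool.Agent.Helper74.TS

/-- the largest volume of a far cell of width `y` with `al ≤ d` (for `d ≤ (1 + y) / 2`) -/
noncomputable def h0 (y d : ℝ) : ℝ := y * d * (1 + y - d) - y ^ 3 / 3 + (max (y - d) 0) ^ 3 / 3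

/-- **the own term** -/
noncomputable def hown (y d : ℝ) : ℝ :=
  y * d * (1 + y - d) - y ^ 3 / 3 + (max (y - d) 0) ^ 3 / 3 + max (d - 1 / 2) 0 / 3

theorem hown_eq (y d : ℝ) : hown y d = h0 y d + max (d - 1 / 2) 0 / 3 := rfl

theorem h0_ge {y d : ℝ} (h : d ≤ y) : h0 y d = d * y - d ^ 3 / 3 := by
  rw [h0, max_eq_left (by linarith : 0 ≤ y - d)]
  ring

theorem h0_le {y d : ℝ} (h : y ≤ d) : h0 y d = y * d * (1 + y - d) - y ^ 3 / 3 := by
  rw [h0, max_eq_right (by linarith : y - d ≤ 0)]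
  ring

theorem h0_zero {d : ℝ} (h : 0 ≤ d) : h0 0 d = 0 := by
  rw [h0_le h]
  ring

/-- the excess over `h0` -/
noncomputable def mm (w d : ℝ) : ℝ := max (d - (1 + w) / 2) 0

theorem mm_nonneg (w d : ℝ) : 0 ≤ mm w d := le_max_right _ _

theorem mm_zero {w d : ℝ} (h : d ≤ (1 + w) / 2) : mm w d = 0 := max_eq_right (by linarith)

theorem mm_le {w d : ℝ} (h : 0 ≤ w) : mm w d ≤ max (d - 1 / 2) 0 :=
  max_le_max (by linarith) le_rfl

/-- **the volume of the own cell** -/
theorem vl_own {w al be d : ℝ} (w0 : 0 ≤ w) (hal : 0 ≤ al) (hbe : 0 ≤ be) (hs : w ≤ al + be)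
    (hs1 : al + be ≤ 1 + w) (h : al ≤ d) (hd : d ≤ 11 / 20) :
    vl w al be ≤ h0 w d + w * mm w d ^ 2 := by
  have h1 := vl_mono_r w0 hal hbe hs (by linarith : be ≤ 1 + w - al)
  refine h1.trans ?_
  have e : vl w al (1 + w - al) = w * al * (1 + w - al) - w ^ 3 / 3 +
      (max (w - al) 0) ^ 3 / 3 := by
    rw [vl, max_eq_right (by linarith : w - (1 + w - al) ≤ 0)]
    ring
  rw [e, h0]
  have hm := mul_nonneg w0 (sq_nonneg (mm w d))
  rcases le_total d w with h2 | h2
  · rw [max_eq_left (by linarith : 0 ≤ w - al), max_eq_left (by linarith : 0 ≤ w - d)]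
    obtain ⟨t, ht⟩ : ∃ t, t = d - al := ⟨_, rfl⟩
    have t0 : 0 ≤ t := by linarith
    have k : 0 ≤ t * (w * (1 - d) + al * (w - al)) :=
      mul_nonneg t0 (add_nonneg (mul_nonneg w0 (by linarith)) (mul_nonneg hal (by linarith)))
    have k2 : 0 ≤ t * (t * (3 * (w - al) - t)) := mul_nonneg t0 (mul_nonneg t0 (by linarith))
    have hd' : d = al + t := by linarith
    subst hd'
    nlinarith
  · rcases le_total al w with h3 | h3
    · rw [max_eq_left (by linarith : 0 ≤ w - al), max_eq_right (by linarith : w - d ≤ 0)]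
      have k : 0 ≤ w * ((d - w) * (1 - d)) :=
        mul_nonneg w0 (mul_nonneg (by linarith) (by linarith))
      obtain ⟨t, ht⟩ : ∃ t, t = w - al := ⟨_, rfl⟩
      have t0 : 0 ≤ t := by linarith
      have k2 : 0 ≤ t * (w * (1 - w) + al * t) :=
        mul_nonneg t0 (add_nonneg (mul_nonneg w0 (by linarith)) (mul_nonneg hal t0))
      have k3 : 0 ≤ t * (t * t) := mul_nonneg t0 (mul_nonneg t0 t0)
      have hw : al = w - t := by linarith
      subst hw
      nlinarith
    · rw [max_eq_right (by linarith : w - al ≤ 0), max_eq_right (by linarith : w - d ≤ 0)]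
      have k : -(mm w d ^ 2) ≤ (d - al) * (1 + w - d - al) := by
        rcases le_total d ((1 + w) / 2) with h4 | h4
        · rw [mm_zero h4]
          have := mul_nonneg (by linarith : 0 ≤ d - al) (by linarith : 0 ≤ 1 + w - d - al)
          simpa using this
        · have : mm w d = d - (1 + w) / 2 := max_eq_left (by linarith)
          rw [this]
          nlinarith [sq_nonneg (al - (1 + w) / 2)]
      have := mul_le_mul_of_nonneg_left k w0
      nlinarith

/-- `h0` is increasing in the width -/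
theorem h0_mono {w y d : ℝ} (w0 : 0 ≤ w) (h : w ≤ y) (d0 : 0 ≤ d) (d1 : d ≤ 11 / 20) :
    h0 w d ≤ h0 y d := by
  rcases le_total y d with h1 | h1
  · rw [h0_le h1, h0_le (h.trans h1)]
    obtain ⟨t, ht⟩ : ∃ t, t = y - w := ⟨_, rfl⟩
    have hy : y = w + t := by linarith
    have t0 : 0 ≤ t := by linarith
    subst hy
    have k1 : 0 ≤ t * (d * (1 - d)) := mul_nonneg t0 (mul_nonneg d0 (by linarith))
    have k2 : 0 ≤ t * (w * (d - w - t)) := mul_nonneg t0 (mul_nonneg w0 (by linarith))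
    have k3 : 0 ≤ t * (t * (d - w - t)) := mul_nonneg t0 (mul_nonneg t0 (by linarith))
    have k4 : 0 ≤ t * (w * d) := mul_nonneg t0 (mul_nonneg w0 d0)
    have k5 : 0 ≤ t * (w * t) := mul_nonneg t0 (mul_nonneg w0 t0)
    have k6 : 0 ≤ t * (t * t) := mul_nonneg t0 (mul_nonneg t0 t0)
    nlinarith
  · rcases le_total w d with h2 | h2
    · rw [h0_le h2, h0_ge h1]
      obtain ⟨t, ht⟩ : ∃ t, t = d - w := ⟨_, rfl⟩
      have hd : d = w + t := by linarith
      have t0 : 0 ≤ t := by linarith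
      have k0 : 0 ≤ d * (y - d) := mul_nonneg d0 (by linarith)
      have k1 : 0 ≤ t * (d * (1 - d)) := mul_nonneg t0 (mul_nonneg d0 (by linarith))
      subst hd
      have k5 : 0 ≤ t * (w * t) := mul_nonneg t0 (mul_nonneg w0 t0)
      have k6 : 0 ≤ t * (t * t) := mul_nonneg t0 (mul_nonneg t0 t0)
      have k7 : 0 ≤ t * (w * w) := mul_nonneg t0 (mul_nonneg w0 w0)
      nlinarith
    · rw [h0_ge h2, h0_ge h1]
      nlinarith [mul_nonneg d0 (sub_nonneg.2 h)]

/-- the slope of `h0` in the width is at most `d` -/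
theorem h0_lip {w y d : ℝ} (h : y ≤ w) : h0 w d - h0 y d ≤ d * (w - y) := by
  rcases le_total w d with h1 | h1
  · rw [h0_le h1, h0_le (h.trans h1)]
    obtain ⟨a, ha⟩ : ∃ a, a = d - w := ⟨_, rfl⟩
    obtain ⟨b, hb⟩ : ∃ b, b = w - y := ⟨_, rfl⟩
    have a0 : 0 ≤ a := by linarith
    have b0 : 0 ≤ b := by linarith
    have e1 : w = d - a := by linarith
    have e2 : y = d - a - b := by linarith
    subst e1 e2
    have k1 : 0 ≤ b * (a * a) := mul_nonneg b0 (mul_nonneg a0 a0)
    have k2 : 0 ≤ b * (a * b) := mul_nonneg b0 (mul_nonneg a0 b0)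
    have k3 : 0 ≤ b * (b * b) := mul_nonneg b0 (mul_nonneg b0 b0)
    nlinarith
  · rcases le_total y d with h2 | h2
    · rw [h0_le h2, h0_ge h1]
      obtain ⟨b, hb⟩ : ∃ b, b = d - y := ⟨_, rfl⟩
      have b0 : 0 ≤ b := by linarith
      have e2 : y = d - b := by linarith
      subst e2
      have k3 : 0 ≤ b * (b * b) := mul_nonneg b0 (mul_nonneg b0 b0)
      nlinarith
    · rw [h0_ge h1, h0_ge h2]
      nlinarith

/-- the own term dominates the volume of a narrower cell -/
theorem vl_own_le {w y al be d : ℝ} (w0 : 0 ≤ w) (hal : 0 ≤ al) (hbe : 0 ≤ be)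
    (hs : w ≤ al + be) (hs1 : al + be ≤ 1 + w) (h : al ≤ d) (hd : d ≤ 11 / 20) (hwy : w ≤ y)
    (w1 : w ≤ 1) : vl w al be ≤ hown y d := by
  have h1 := vl_own w0 hal hbe hs hs1 h hd
  have h2 := h0_mono w0 hwy (hal.trans h) hd
  have h3 : w * mm w d ^ 2 ≤ max (d - 1 / 2) 0 / 3 := by
    have k1 := mm_le (d := d) w0
    have k0 := mm_nonneg w d
    have k2 : max (d - 1 / 2) 0 ≤ 1 / 20 := max_le (by linarith) (by norm_num)
    have k3 : w * mm w d ^ 2 ≤ 1 * mm w d ^ 2 := mul_le_mul_of_nonneg_right w1 (sq_nonneg _)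
    nlinarith
  rw [hown_eq]
  linarith

end Pool.Agent.Helper51.TS
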